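import Pool.Agent.Run7.h415.MQP.Core

set_option autoImplicit false

/-!
# One product of short Dirichlet polynomials, cut to `[N, 2N]`
-/

open Finset

namespace Run7.h415.MQP

open Pool.Agent.W200.MR (pw)
open Pool.Agent.TH445.MQ

/-- the convolution of `c_1, ..., c_J`, with `c_j` cut to `[1, M_j]` -/
noncomputable def cvf {J : ℕ} (M : Fin J → ℕ) (c : Fin J → ℕ → ℂ) (n : ℕ) : ℂ :=
  ∑ f ∈ (Fintype.piFinset fun j => Icc 1 (M j)).filter (fun f => ∏ j, f j = n), ∏ j, c j (f j)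

/-- the same as an arithmetic function -/
noncomputable def cv {J : ℕ} (M : Fin J → ℕ) (c : Fin J → ℕ → ℂ) : AF :=
  ⟨fun n => if n = 0 then 0 else cvf M c n, by simp⟩

/-- a single factor -/
noncomputable def fac (M : ℕ) (c : ℕ → ℂ) : AF :=
  ⟨fun n => if n ∈ Icc 1 M then c n else 0, by simp⟩

lemma fac_apply (M : ℕ) (c : ℕ → ℂ) (n : ℕ) : fac M c n = if n ∈ Icc 1 M then c n else 0 := rfl

lemma cv_apply {J : ℕ} (M : Fin J → ℕ) (c : Fin J → ℕ → ℂ) (n : ℕ) (hn : n ≠ 0) :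
    cv M c n = cvf M c n := if_neg hn

lemma fac_L2 (M : ℕ) (c : ℕ → ℂ) : L2 (fac M c) (∑ n ∈ Icc 1 M, ‖c n‖ ^ 2) (2 * M) := by
  refine ⟨fun n hn => ?_, fun s => ?_⟩
  · rw [fac_apply] at hn
    have h1 : n ∈ Icc 1 M := by
      by_contra h
      rw [if_neg h] at hn
      exact hn rfl
    rw [mem_Icc] at h1
    have : (n : ℝ) ≤ M := by exact_mod_cast h1.2
    have h2 : (0 : ℝ) ≤ M := Nat.cast_nonneg _
    linarith
  · have : ∀ n, ‖fac M c n‖ ^ 2 = if n ∈ Icc 1 M then ‖c n‖ ^ 2 else 0 := by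
      intro n
      rw [fac_apply]
      split_ifs <;> simp
    simp only [this]
    rw [← sum_filter]
    apply sum_le_sum_of_subset_of_nonneg
    · intro n hn
      rw [mem_filter] at hn
      exact hn.2
    · intro n _ _
      positivity

lemma fac_ev (M : ℕ) (c : ℕ → ℂ) (τ : ℝ) : ev (fac M c) τ = ∑ n ∈ Icc 1 M, c n * pw τ n := by
  rw [ev_eq (fac M c) M]
  · refine sum_congr rfl fun n hn => ?_
    rw [fac_apply, if_pos hn]
  · intro n hn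
    rw [fac_apply, if_neg]
    rw [mem_Icc]
    omega

lemma pw_prod {J : ℕ} (τ : ℝ) (f : Fin J → ℕ) (hf : ∀ j, 1 ≤ f j) :
    pw τ (∏ j, f j) = ∏ j, pw τ (f j) := by
  unfold pw
  rw [← Complex.exp_sum]
  congr 1
  rw [← sum_mul]
  congr 1
  rw [← Complex.ofReal_sum, ← mul_sum]
  congr 2
  rw [Nat.cast_prod, Real.log_prod]
  intro j _
  have : (1 : ℝ) ≤ f j := by exact_mod_cast hf j
  positivity

lemma prod_mem {J : ℕ} (M : Fin J → ℕ) (f : Fin J → ℕ)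
    (hf : f ∈ Fintype.piFinset fun j => Icc 1 (M j)) : ∏ j, f j ∈ Icc 1 (∏ j, M j) := by
  rw [Fintype.mem_piFinset] at hf
  simp only [mem_Icc] at hf ⊢
  refine ⟨?_, prod_le_prod' fun j _ => (hf j).2⟩
  exact Nat.one_le_iff_ne_zero.2 (prod_ne_zero_iff.2 fun j _ => by have := (hf j).1; omega)

lemma cv_zero {J : ℕ} (M : Fin J → ℕ) (c : Fin J → ℕ → ℂ) (n : ℕ) (hn : ∏ j, M j < n) :
    cv M c n = 0 := by
  rw [cv_apply M c n (by omega)]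
  unfold cvf
  apply sum_eq_zero
  intro f hf
  exfalso
  rw [mem_filter] at hf
  have := prod_mem M f hf.1
  rw [mem_Icc] at this
  omega

lemma cv_FS {J : ℕ} (M : Fin J → ℕ) (c : Fin J → ℕ → ℂ) : FS (cv M c) :=
  ⟨_, cv_zero M c⟩

lemma cv_ev {J : ℕ} (M : Fin J → ℕ) (c : Fin J → ℕ → ℂ) (τ : ℝ) :
    ev (cv M c) τ = ∏ j, ev (fac (M j) (c j)) τ := by
  classical
  rw [ev_eq (cv M c) _ (cv_zero M c)]
  simp only [fac_ev]
  rw [prod_univ_sum]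
  rw [← sum_fiberwise_of_maps_to (s := Fintype.piFinset fun j => Icc 1 (M j))
    (t := Icc 1 (∏ j, M j)) (g := fun f => ∏ j, f j) (fun f hf => prod_mem M f hf)]
  refine sum_congr rfl fun n hn => ?_
  rw [mem_Icc] at hn
  rw [cv_apply M c n (by omega)]
  unfold cvf
  rw [sum_mul]
  refine sum_congr rfl fun f hf => ?_
  rw [mem_filter, Fintype.mem_piFinset] at hf
  rw [prod_mul_distrib, ← pw_prod τ f (fun j => (mem_Icc.1 (hf.1 j)).1), hf.2]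

/-- the loss of the mean value theorem and of the divisor function -/
lemma wbound (η Y C : ℝ) (E : ℕ) (hη : 0 < η) (hY : 1 ≤ Y) (hC : 1 ≤ C) :
    4 * (2 + Real.log Y ^ 2) * (1 + Real.log Y) * (C * Y ^ η) ^ E ≤
      4 * (2 + 1 / η ^ 2) * (1 + 1 / η) * C ^ E * Y ^ ((3 + E) * η) := by
  have hY0 : 0 < Y := by linarith
  have hl0 : 0 ≤ Real.log Y := Real.log_nonneg hY
  have hl : Real.log Y ≤ Y ^ η / η := Real.log_le_rpow_div hY0.le hη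
  obtain ⟨Z, hZ⟩ : ∃ Z : ℝ, Z = Y ^ η := ⟨_, rfl⟩
  have hZ1 : 1 ≤ Z := by rw [hZ]; exact Real.one_le_rpow hY hη.le
  rw [← hZ] at hl ⊢
  have h1 : Real.log Y ^ 2 ≤ Z ^ 2 / η ^ 2 := by
    rw [← div_pow]
    exact pow_le_pow_left₀ hl0 hl 2
  have h2 : 2 + Real.log Y ^ 2 ≤ (2 + 1 / η ^ 2) * Z ^ 2 := by
    have : 1 ≤ Z ^ 2 := one_le_pow₀ hZ1
    calc 2 + Real.log Y ^ 2 ≤ 2 * Z ^ 2 + Z ^ 2 / η ^ 2 := by linarith
      _ = (2 + 1 / η ^ 2) * Z ^ 2 := by ring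
  have h3 : 1 + Real.log Y ≤ (1 + 1 / η) * Z := by
    calc 1 + Real.log Y ≤ Z + Z / η := by linarith
      _ = (1 + 1 / η) * Z := by ring
  have h4 : Y ^ ((3 + E) * η) = Z ^ (3 + E) := by
    rw [hZ, ← Real.rpow_natCast, ← Real.rpow_mul hY0.le]
    congr 1
    push_cast
    ring
  rw [h4]
  calc 4 * (2 + Real.log Y ^ 2) * (1 + Real.log Y) * (C * Z) ^ E
      ≤ 4 * ((2 + 1 / η ^ 2) * Z ^ 2) * ((1 + 1 / η) * Z) * (C * Z) ^ E := by gcongr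
    _ = 4 * (2 + 1 / η ^ 2) * (1 + 1 / η) * C ^ E * Z ^ (3 + E) := by
        rw [mul_pow, pow_add]
        ring

/-- **one product** -/
theorem one (J : ℕ) (q ε : ℝ) (hq : 2 ≤ q) (hε : 0 < ε) :
    ∃ K : ℝ, 0 ≤ K ∧ ∀ (N T : ℕ) (R G : ℝ) (M : Fin J → ℕ) (c : Fin J → ℕ → ℂ),
      1 ≤ N → 1 ≤ R → 0 ≤ G → (∀ j, 1 ≤ M j) → ∏ j, M j ≤ 2 * N →
      ∏ j, ∑ n ∈ Icc 1 (M j), ‖c j n‖ ^ 2 ≤ G →
      (∀ y : Fin J → ℝ, Box y → ∑ j, Real.log (2 * M j) * y j =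
        (q / 2 - ⌊q / 2⌋₊) * ∑ j, Real.log (2 * M j) →
        (frac y).card ≤ 1 → ∀ j ∈ frac y, (2 * (M j : ℝ)) ^ (y j * (1 - y j)) ≤ R) →
      ∑ t ∈ Icc 1 T, ‖∑ n ∈ Icc N (2 * N), cvf M c n * pw (t : ℝ) n‖ ^ q ≤
        K * (N : ℝ) ^ ε * R * G ^ (q / 2) * ((N : ℝ) ^ (q / 2) + T) := by
  have hq0 : 0 < q := by linarith
  obtain ⟨k, hk⟩ : ∃ k : ℕ, k = ⌊q / 2⌋₊ := ⟨_, rfl⟩
  rw [← hk]
  obtain ⟨θ, hθ⟩ : ∃ θ : ℝ, θ = q / 2 - k := ⟨_, rfl⟩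
  rw [← hθ]
  have hθ0 : 0 ≤ θ := by
    have := Nat.floor_le (show 0 ≤ q / 2 by positivity)
    rw [← hk] at this
    linarith
  have hθ1 : θ ≤ 1 := by
    have := Nat.lt_floor_add_one (q / 2)
    rw [← hk] at this
    linarith
  have hqk : q / 2 = k + θ := by rw [hθ]; ring
  obtain ⟨E, hE⟩ : ∃ E : ℕ, E = J * (k + 1 + 1) := ⟨_, rfl⟩
  obtain ⟨η, hη⟩ : ∃ η : ℝ, η = ε / 2 / ((k + 1) * (3 + E)) := ⟨_, rfl⟩
  have hη0 : 0 < η := by rw [hη]; positivity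
  obtain ⟨Cd, hCd0, hCd⟩ := Pool.Agent.H510R2.divisor_bound η hη0
  set C : ℝ := max Cd 1 with hC
  have hC1 : 1 ≤ C := le_max_right _ _
  obtain ⟨η', hη'⟩ : ∃ η' : ℝ, η' = min 1 (ε / (2 * q)) := ⟨_, rfl⟩
  have hη'0 : 0 < η' := by rw [hη']; exact lt_min one_pos (by positivity)
  have hη'1 : η' ≤ 1 := by rw [hη']; exact min_le_left _ _
  have hη'q : η' * q ≤ ε / 2 := by
    calc η' * q ≤ ε / (2 * q) * q := by
          rw [hη']
          exact mul_le_mul_of_nonneg_right (min_le_right _ _) hq0.le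
      _ = ε / 2 := by field_simp
  obtain ⟨C', hC'1, hcut⟩ := cut_moment η' hη'0 hη'1
  set B : ℝ := 2 ^ (J + 1) with hB
  have hB1 : (1 : ℝ) ≤ B := by rw [hB]; exact one_le_pow₀ (by norm_num)
  set c1 : ℝ := 4 * (2 + 1 / η ^ 2) * (1 + 1 / η) * C ^ E with hc1
  have hc10 : 0 ≤ c1 := by positivity
  refine ⟨C' ^ q * (c1 * B ^ (ε / 2) * B ^ (q / 2)), by positivity, ?_⟩
  intro N T R G M c hN hR hG hM hMN hGM hRy
  have hNr : (1 : ℝ) ≤ N := by exact_mod_cast hN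
  have hN0 : (0 : ℝ) < N := by linarith
  rcases Nat.eq_zero_or_pos T with hT0 | hT
  · subst hT0
    rw [Icc_eq_empty (by norm_num), sum_empty]
    positivity
  have hTr : (1 : ℝ) ≤ T := by exact_mod_cast hT
  have hMr : ∀ j, (1 : ℝ) ≤ M j := fun j => by exact_mod_cast hM j
  set x : Fin J → ℝ := fun j => 2 * (M j : ℝ) with hx
  have hx1 : ∀ j, 1 < x j := fun j => by
    have := hMr j
    simp only [hx]
    linarith
  have hxp : ∏ j, x j ≤ B * N := by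
    simp only [hx]
    rw [prod_mul_distrib, prod_const, card_univ, Fintype.card_fin, hB, pow_succ]
    have : ((∏ j, M j : ℕ) : ℝ) ≤ 2 * N := by exact_mod_cast hMN
    rw [Nat.cast_prod] at this
    calc (2 : ℝ) ^ J * ∏ j, (M j : ℝ) ≤ 2 ^ J * (2 * N) :=
          mul_le_mul_of_nonneg_left this (by positivity)
      _ = 2 ^ J * 2 * N := by ring
  have hxp1 : 1 ≤ ∏ j, x j := by
    rw [← prod_const_one (s := (univ : Finset (Fin J)))]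
    exact prod_le_prod (fun _ _ => zero_le_one) fun j _ => (hx1 j).le
  obtain ⟨Y, hY⟩ : ∃ Y : ℝ, Y = (B * N) ^ (k + 1) := ⟨_, rfl⟩
  have hBN1 : 1 ≤ B * N := by nlinarith
  have hY1 : 1 ≤ Y := by rw [hY]; exact one_le_pow₀ hBN1
  have hxY : (∏ j, x j) ^ (k + 1) ≤ Y := by
    rw [hY]
    exact pow_le_pow_left₀ (by linarith) hxp _
  have hxY1 : 1 ≤ (∏ j, x j) ^ (k + 1) := one_le_pow₀ hxp1
  set Δ : ℝ := C * Y ^ η with hΔ
  have hYη : 1 ≤ Y ^ η := Real.one_le_rpow hY1 hη0.le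
  have hΔ1 : 1 ≤ Δ := by rw [hΔ]; nlinarith
  have hdiv : ∀ n : ℕ, 1 ≤ n → (n : ℝ) ≤ (∏ j, x j) ^ (k + 1) → (n.divisors.card : ℝ) ≤ Δ := by
    intro n hn hn2
    refine (hCd n hn).trans ?_
    rw [hΔ]
    have h1 : (n : ℝ) ^ η ≤ Y ^ η :=
      Real.rpow_le_rpow (Nat.cast_nonneg _) (hn2.trans hxY) hη0.le
    exact mul_le_mul (le_max_left _ _) h1 (by positivity) (by positivity)
  have hW0 : 4 * (2 + Real.log ((∏ j, x j) ^ (k + 1)) ^ 2) *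
      (1 + Real.log ((∏ j, x j) ^ (k + 1))) * Δ ^ (Fintype.card (Fin J) * (k + 1 + 1)) ≤
      c1 * B ^ (ε / 2) * (N : ℝ) ^ (ε / 2) := by
    rw [Fintype.card_fin, ← hE]
    have hl0 : 0 ≤ Real.log ((∏ j, x j) ^ (k + 1)) := Real.log_nonneg hxY1
    have hl1 : Real.log ((∏ j, x j) ^ (k + 1)) ≤ Real.log Y :=
      Real.log_le_log (by linarith) hxY
    calc _ ≤ 4 * (2 + Real.log Y ^ 2) * (1 + Real.log Y) * Δ ^ E := by gcongr
      _ ≤ c1 * Y ^ ((3 + E) * η) := wbound η Y C E hη0 hY1 hC1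
      _ = c1 * B ^ (ε / 2) * (N : ℝ) ^ (ε / 2) := by
          have e9 : ((k + 1 : ℕ) : ℝ) * ((3 + (E : ℝ)) * η) = ε / 2 := by
            rw [hη]
            push_cast
            field_simp
          rw [show c1 * B ^ (ε / 2) * (N : ℝ) ^ (ε / 2) = c1 * (B ^ (ε / 2) * (N : ℝ) ^ (ε / 2)) by
            ring, ← Real.mul_rpow (by positivity) hN0.le, hY, ← Real.rpow_natCast,
            ← Real.rpow_mul (by positivity), e9]
  have hmom : ∀ ξ : ℝ, ∑ t ∈ Icc 1 T, ‖ev (cv M c) ((t : ℝ) + ξ)‖ ^ q ≤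
      c1 * B ^ (ε / 2) * (N : ℝ) ^ (ε / 2) * R * (B ^ (q / 2) * ((N : ℝ) ^ (q / 2) + T)) *
        G ^ (q / 2) := by
    intro ξ
    have h1 := core (fun j => fac (M j) (c j)) (fun j => ∑ n ∈ Icc 1 (M j), ‖c j n‖ ^ 2) x q θ R
      hq0 k hθ0 hθ1 hqk (Δ := Δ) (fun j => fac_L2 (M j) (c j)) hx1 hdiv hΔ1 hR hRy T hT ξ
    simp only [cv_ev]
    refine h1.trans ?_
    have hGM0 : 0 ≤ ∏ j, ∑ n ∈ Icc 1 (M j), ‖c j n‖ ^ 2 :=
      prod_nonneg fun j _ => sum_nonneg fun _ _ => by positivity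
    have h2 : (∏ j, ∑ n ∈ Icc 1 (M j), ‖c j n‖ ^ 2) ^ (q / 2) ≤ G ^ (q / 2) :=
      Real.rpow_le_rpow hGM0 hGM (by positivity)
    have hBq : 1 ≤ B ^ (q / 2) := Real.one_le_rpow hB1 (by positivity)
    have h3 : (T : ℝ) + (∏ j, x j) ^ (q / 2) ≤ B ^ (q / 2) * ((N : ℝ) ^ (q / 2) + T) := by
      have h4 : (∏ j, x j) ^ (q / 2) ≤ B ^ (q / 2) * (N : ℝ) ^ (q / 2) := by
        rw [← Real.mul_rpow (by linarith) hN0.le]
        exact Real.rpow_le_rpow (by linarith) hxp (by positivity)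
      have h10 : (T : ℝ) ≤ B ^ (q / 2) * T := le_mul_of_one_le_left (by positivity) hBq
      linarith
    have h5 : 0 ≤ (∏ j, x j) ^ (q / 2) := Real.rpow_nonneg (by linarith) _
    have h6 : 0 ≤ (∏ j, ∑ n ∈ Icc 1 (M j), ‖c j n‖ ^ 2) ^ (q / 2) := Real.rpow_nonneg hGM0 _
    have h7 : 0 ≤ B ^ (ε / 2) := by positivity
    gcongr
  have h := hcut N hN (cv M c) (cv_FS M c) T q _ (by linarith) hmom
  have e : ∀ t ∈ Icc 1 T, ‖cut N (cv M c) (t : ℝ)‖ ^ q =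
      ‖∑ n ∈ Icc N (2 * N), cvf M c n * pw (t : ℝ) n‖ ^ q := by
    intro t _
    unfold cut
    congr 2
    refine sum_congr rfl fun n hn => ?_
    rw [mem_Icc] at hn
    rw [cv_apply M c n (by omega)]
  rw [sum_congr rfl e] at h
  refine h.trans ?_
  rw [Real.mul_rpow (by linarith) (by positivity), ← Real.rpow_mul hN0.le]
  have h8 : (N : ℝ) ^ (η' * q) ≤ (N : ℝ) ^ (ε / 2) :=
    Real.rpow_le_rpow_of_exponent_le hNr hη'q
  have h9 : (N : ℝ) ^ ε = (N : ℝ) ^ (ε / 2) * (N : ℝ) ^ (ε / 2) := by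
    rw [← Real.rpow_add hN0]
    congr 1
    ring
  rw [h9]
  calc C' ^ q * (N : ℝ) ^ (η' * q) * (c1 * B ^ (ε / 2) * (N : ℝ) ^ (ε / 2) * R *
        (B ^ (q / 2) * ((N : ℝ) ^ (q / 2) + T)) * G ^ (q / 2))
      ≤ C' ^ q * (N : ℝ) ^ (ε / 2) * (c1 * B ^ (ε / 2) * (N : ℝ) ^ (ε / 2) * R *
        (B ^ (q / 2) * ((N : ℝ) ^ (q / 2) + T)) * G ^ (q / 2)) := by
        gcongr
    _ = _ := by ring

end Run7.h415.MQP
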