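import Mathlib

set_option autoImplicit false

/-!
# Rounding of all coordinates but one along a hyperplane
-/

open Finset

namespace Run7.h415.MQP

open Classical in
/-- the fractional coordinates -/
noncomputable def frac {ι : Type*} [Fintype ι] (y : ι → ℝ) : Finset ι :=
  univ.filter fun i => y i ≠ 0 ∧ y i ≠ 1

/-- the box -/
def Box {ι : Type*} (y : ι → ℝ) : Prop := ∀ i, 0 ≤ y i ∧ y i ≤ 1

open Classical in
/-- the direction -/
noncomputable def dir {ι : Type*} (x : ι → ℝ) (i j : ι) : ι → ℝ := fun t =>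
  (if t = i then 1 / x i else 0) - (if t = j then 1 / x j else 0)

lemma dir_i {ι : Type*} (x : ι → ℝ) {i j : ι} (h : i ≠ j) : dir x i j i = 1 / x i := by
  unfold dir
  rw [if_pos rfl, if_neg h, sub_zero]

lemma dir_j {ι : Type*} (x : ι → ℝ) {i j : ι} (h : i ≠ j) : dir x i j j = -(1 / x j) := by
  unfold dir
  rw [if_pos rfl, if_neg h.symm, zero_sub]

lemma dir_t {ι : Type*} (x : ι → ℝ) {i j t : ι} (hi : t ≠ i) (hj : t ≠ j) : dir x i j t = 0 := by
  unfold dir
  rw [if_neg hi, if_neg hj, sub_zero]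

lemma dir_sum {ι : Type*} [Fintype ι] (x : ι → ℝ) (hx : ∀ i, 0 < x i) (i j : ι) :
    ∑ t, x t * dir x i j t = 0 := by
  classical
  unfold dir
  simp only [mul_sub, sum_sub_distrib, mul_ite, mul_zero, sum_ite_eq', mem_univ, if_true]
  rw [mul_one_div_cancel (hx i).ne', mul_one_div_cancel (hx j).ne', sub_self]

/-- moving up to the boundary -/
lemma move {ι : Type*} [Fintype ι] (x : ι → ℝ) (hx : ∀ i, 0 < x i) (y : ι → ℝ) (hy : Box y)
    (i j : ι) (hij : i ≠ j) (hi : i ∈ frac y) (hj : j ∈ frac y) :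
    ∃ α : ℝ, 0 < α ∧ Box (fun t => y t + α * dir x i j t) ∧
      (frac fun t => y t + α * dir x i j t).card < (frac y).card := by
  classical
  have hi' : y i ≠ 0 ∧ y i ≠ 1 := by simpa [frac] using hi
  have hj' : y j ≠ 0 ∧ y j ≠ 1 := by simpa [frac] using hj
  have hi0 : 0 < y i := lt_of_le_of_ne (hy i).1 hi'.1.symm
  have hi1 : y i < 1 := lt_of_le_of_ne (hy i).2 hi'.2
  have hj0 : 0 < y j := lt_of_le_of_ne (hy j).1 hj'.1.symm
  have hj1 : y j < 1 := lt_of_le_of_ne (hy j).2 hj'.2
  have hxi := hx i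
  have hxj := hx j
  have hsub : ∀ α : ℝ, ∀ t, t ∈ (frac fun t => y t + α * dir x i j t) → t ∈ frac y := by
    intro α t ht
    by_cases h1 : t = i
    · subst h1; exact hi
    by_cases h2 : t = j
    · subst h2; exact hj
    simp only [frac, mem_filter, mem_univ, true_and] at ht ⊢
    rwa [dir_t x h1 h2, mul_zero, add_zero] at ht
  have hbox : ∀ α : ℝ, 0 ≤ α → α ≤ x i * (1 - y i) → α ≤ x j * y j →
      Box (fun t => y t + α * dir x i j t) := by
    intro α h0 h1 h2 t
    simp only
    by_cases ht1 : t = i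
    · subst ht1
      rw [dir_i x hij, mul_one_div]
      have : α / x t ≤ 1 - y t := by rw [div_le_iff₀ hxi, mul_comm]; exact h1
      exact ⟨by positivity, by linarith⟩
    by_cases ht2 : t = j
    · subst ht2
      rw [dir_j x hij, mul_neg, mul_one_div]
      have : α / x t ≤ y t := by rw [div_le_iff₀ hxj, mul_comm]; exact h2
      have h3 : 0 ≤ α / x t := by positivity
      exact ⟨by linarith, by linarith⟩
    · rw [dir_t x ht1 ht2, mul_zero, add_zero]
      exact hy t
  rcases le_total (x i * (1 - y i)) (x j * y j) with h | h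
  · refine ⟨x i * (1 - y i), mul_pos hxi (by linarith), hbox _ (by nlinarith) le_rfl h, ?_⟩
    apply card_lt_card
    rw [ssubset_iff_of_subset (hsub _)]
    refine ⟨i, hi, ?_⟩
    simp only [frac, mem_filter, mem_univ, true_and, not_and, not_not]
    intro _
    rw [dir_i x hij]
    field_simp
    ring
  · refine ⟨x j * y j, mul_pos hxj hj0, hbox _ (by positivity) h le_rfl, ?_⟩
    apply card_lt_card
    rw [ssubset_iff_of_subset (hsub _)]
    refine ⟨j, hj, ?_⟩
    simp only [frac, mem_filter, mem_univ, true_and, not_and]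
    intro h3
    exfalso
    apply h3
    rw [dir_j x hij]
    field_simp
    ring

/-- **rounding** -/
theorem pipage {ι : Type*} [Fintype ι] (x : ι → ℝ) (hx : ∀ i, 0 < x i) (F : (ι → ℝ) → ℝ)
    (B c : ℝ)
    (hF : ∀ y y' : ι → ℝ, Box y → Box y' → ∀ l : ℝ, 0 ≤ l → l ≤ 1 →
      F (fun i => (1 - l) * y i + l * y' i) ≤ (1 - l) * F y + l * F y')
    (hB : ∀ y, Box y → ∑ i, x i * y i = c → (frac y).card ≤ 1 → F y ≤ B) :
    ∀ n : ℕ, ∀ y, Box y → ∑ i, x i * y i = c → (frac y).card ≤ n → F y ≤ B := by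
  classical
  intro n
  induction n with
  | zero => intro y hy hc hn; exact hB y hy hc (by omega)
  | succ n ih =>
    intro y hy hc hn
    rcases le_or_gt (frac y).card 1 with h1 | h1
    · exact hB y hy hc h1
    obtain ⟨i, hi, j, hj, hij⟩ := one_lt_card.1 h1
    obtain ⟨α, hα, hb1, hc1⟩ := move x hx y hy i j hij hi hj
    obtain ⟨β, hβ, hb2, hc2⟩ := move x hx y hy j i hij.symm hj hi
    have hd : ∀ t, dir x j i t = - dir x i j t := by
      intro t
      unfold dir
      ring
    have hs1 : ∑ t, x t * (y t + α * dir x i j t) = c := by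
      have : ∀ t, x t * (y t + α * dir x i j t) = x t * y t + α * (x t * dir x i j t) := fun t => by
        ring
      simp only [this]
      rw [sum_add_distrib, ← mul_sum, dir_sum x hx, mul_zero, add_zero, hc]
    have hs2 : ∑ t, x t * (y t + β * dir x j i t) = c := by
      have : ∀ t, x t * (y t + β * dir x j i t) = x t * y t + β * (x t * dir x j i t) := fun t => by
        ring
      simp only [this]
      rw [sum_add_distrib, ← mul_sum, dir_sum x hx, mul_zero, add_zero, hc]
    have h2 := ih _ hb1 hs1 (by omega)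
    have h3 := ih _ hb2 hs2 (by omega)
    have hαβ : 0 < α + β := by linarith
    have h4 := hF _ _ hb1 hb2 (α / (α + β)) (by positivity) (by rw [div_le_one hαβ]; linarith)
    have e : (fun t => (1 - α / (α + β)) * (y t + α * dir x i j t) +
        α / (α + β) * (y t + β * dir x j i t)) = y := by
      funext t
      rw [hd]
      field_simp
      ring
    rw [e] at h4
    have hl1 : 0 ≤ 1 - α / (α + β) := by
      rw [sub_nonneg, div_le_one hαβ]; linarith
    have hl0 : 0 ≤ α / (α + β) := by positivity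
    calc F y ≤ _ := h4
      _ ≤ (1 - α / (α + β)) * B + α / (α + β) * B :=
        add_le_add (mul_le_mul_of_nonneg_left h2 hl1) (mul_le_mul_of_nonneg_left h3 hl0)
      _ = B := by ring

/-- the weighted power sum is convex in the exponents (with a parameter) -/
lemma conv {ι : Type*} [Fintype ι] (s : Finset ℕ) (w : ℕ → ℝ) (a : ι → ℕ → ℝ)
    (hw : ∀ t ∈ s, 0 ≤ w t) (ha : ∀ i, ∀ t ∈ s, 0 ≤ a i t) (y y' : ι → ℝ) (hy : Box y) (hy' : Box y')
    (l r : ℝ) (hl0 : 0 ≤ l) (hl1 : l ≤ 1) (hr : 0 < r) :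
    ∑ t ∈ s, w t * ∏ i, a i t ^ ((1 - l) * y i + l * y' i) ≤
      r ^ l * ((1 - l) * ∑ t ∈ s, w t * ∏ i, a i t ^ y i +
        l / r * ∑ t ∈ s, w t * ∏ i, a i t ^ y' i) := by
  have e : r ^ l * ((1 - l) * ∑ t ∈ s, w t * ∏ i, a i t ^ y i +
        l / r * ∑ t ∈ s, w t * ∏ i, a i t ^ y' i) =
      ∑ t ∈ s, w t * (r ^ l * ((1 - l) * ∏ i, a i t ^ y i + l * ((∏ i, a i t ^ y' i) / r))) := by
    rw [mul_add, ← mul_assoc, ← mul_assoc, mul_sum, mul_sum, ← sum_add_distrib]
    refine sum_congr rfl fun t _ => ?_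
    ring
  rw [e]
  refine sum_le_sum fun t ht => mul_le_mul_of_nonneg_left ?_ (hw t ht)
  set u := ∏ i, a i t ^ y i with hu
  set v := ∏ i, a i t ^ y' i with hv
  have hu0 : 0 ≤ u := prod_nonneg fun i _ => Real.rpow_nonneg (ha i t ht) _
  have hv0 : 0 ≤ v := prod_nonneg fun i _ => Real.rpow_nonneg (ha i t ht) _
  have h1 : ∏ i, a i t ^ ((1 - l) * y i + l * y' i) = u ^ (1 - l) * v ^ l := by
    rw [hu, hv, ← Real.finsetProd_rpow _ _ (fun i _ => Real.rpow_nonneg (ha i t ht) _),
      ← Real.finsetProd_rpow _ _ (fun i _ => Real.rpow_nonneg (ha i t ht) _), ← prod_mul_distrib]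
    refine prod_congr rfl fun i _ => ?_
    rw [Real.rpow_add_of_nonneg (ha i t ht) (mul_nonneg (by linarith) (hy i).1)
      (mul_nonneg hl0 (hy' i).1), ← Real.rpow_mul (ha i t ht), ← Real.rpow_mul (ha i t ht),
      mul_comm (1 - l), mul_comm l]
  rw [h1]
  have h2 := Real.geom_mean_le_arith_mean2_weighted (w₁ := 1 - l) (w₂ := l) (p₁ := u) (p₂ := v / r)
    (by linarith) hl0 hu0 (by positivity) (by ring)
  have h3 : v ^ l = r ^ l * (v / r) ^ l := by
    rw [← Real.mul_rpow hr.le (by positivity), mul_div_cancel₀ _ hr.ne']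
  rw [h3]
  calc u ^ (1 - l) * (r ^ l * (v / r) ^ l) = r ^ l * (u ^ (1 - l) * (v / r) ^ l) := by ring
    _ ≤ _ := mul_le_mul_of_nonneg_left h2 (by positivity)

end Run7.h415.MQP
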