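import Pool.Agent.Run7.h415.MQP.Prod
import Pool.Agent.Run7.h415.MQP.Pip

set_option autoImplicit false

/-!
# Moments of products of Dirichlet polynomials
-/

open Finset

namespace Run7.h415.MQP

open Pool.Agent.TH445.MQ

/-- one or no fractional coordinate: the bound -/
lemma last_step {ι : Type*} [Fintype ι] (s : Finset ℕ) (w : ℕ → ℝ) (a : ι → ℕ → ℝ)
    (hw : ∀ t ∈ s, 0 ≤ w t) (ha : ∀ i, ∀ t ∈ s, 0 ≤ a i t) (lx : ι → ℝ) (hlx : ∀ i, 0 < lx i)
    (W R T k S θ : ℝ) (hW : 0 ≤ W) (hT : 0 ≤ T) (hR : 1 ≤ R) (hS : S = ∑ i, lx i)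
    (hv : ∀ v : ι → ℝ, (∀ i, v i = 0 ∨ v i = 1) →
      ∑ t ∈ s, w t * ∏ i, a i t ^ v i ≤ W * (T + Real.exp (k * S + ∑ i, lx i * v i)))
    (y : ι → ℝ) (hy : Box y) (hc : ∑ i, lx i * y i = θ * S) (hn : (frac y).card ≤ 1)
    (hRy : ∀ j ∈ frac y, Real.exp (lx j) ^ (y j * (1 - y j)) ≤ R) :
    ∑ t ∈ s, w t * ∏ i, a i t ^ y i ≤ W * R * (T + Real.exp (k * S + θ * S)) := by
  classical
  set P := Real.exp (k * S + θ * S) with hP
  have hP0 : 0 < P := Real.exp_pos _
  rcases Nat.eq_zero_or_pos (frac y).card with h0 | h0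
  · have hf : ∀ i, y i = 0 ∨ y i = 1 := by
      intro i
      by_contra hcon
      rw [not_or] at hcon
      have : i ∈ frac y := by simp only [frac, mem_filter, mem_univ, true_and]; exact hcon
      rw [card_eq_zero.1 h0] at this
      exact absurd this (notMem_empty _)
    have h1 := hv y hf
    rw [hc] at h1
    refine h1.trans ?_
    rw [mul_assoc]
    apply mul_le_mul_of_nonneg_left _ hW
    exact le_mul_of_one_le_left (by positivity) hR
  · obtain ⟨j, hj⟩ := card_eq_one.1 (le_antisymm hn h0)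
    have hjf : j ∈ frac y := by rw [hj]; exact mem_singleton_self _
    have hj' : y j ≠ 0 ∧ y j ≠ 1 := by simpa [frac] using hjf
    have hj0 : 0 < y j := lt_of_le_of_ne (hy j).1 hj'.1.symm
    have hj1 : y j < 1 := lt_of_le_of_ne (hy j).2 hj'.2
    have hoth : ∀ i, i ≠ j → y i = 0 ∨ y i = 1 := by
      intro i hij
      by_contra hcon
      rw [not_or] at hcon
      have : i ∈ frac y := by simp only [frac, mem_filter, mem_univ, true_and]; exact hcon
      rw [hj, mem_singleton] at this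
      exact hij this
    set l := y j with hl
    set v0 : ι → ℝ := Function.update y j 0 with hv0
    set v1 : ι → ℝ := Function.update y j 1 with hv1
    have h01 : ∀ i, v0 i = 0 ∨ v0 i = 1 := by
      intro i
      by_cases h : i = j
      · subst h; left; simp [hv0]
      · simp only [hv0, Function.update_of_ne h]; exact hoth i h
    have h11 : ∀ i, v1 i = 0 ∨ v1 i = 1 := by
      intro i
      by_cases h : i = j
      · subst h; right; simp [hv1]
      · simp only [hv1, Function.update_of_ne h]; exact hoth i h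
    have hb : ∀ v : ι → ℝ, (∀ i, v i = 0 ∨ v i = 1) → Box v := by
      intro v hv i
      rcases hv i with h | h <;> rw [h] <;> norm_num
    have hs : ∀ z : ℝ, ∑ i, lx i * Function.update y j z i = θ * S + lx j * (z - l) := by
      intro z
      have e1 := add_sum_erase univ (fun i => lx i * Function.update y j z i) (mem_univ j)
      have e2 := add_sum_erase univ (fun i => lx i * y i) (mem_univ j)
      have e3 : ∑ i ∈ univ.erase j, lx i * Function.update y j z i =
          ∑ i ∈ univ.erase j, lx i * y i := by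
        refine sum_congr rfl fun i hi => ?_
        rw [Function.update_of_ne (ne_of_mem_erase hi)]
      simp only [Function.update_self] at e1
      rw [← e1, e3]
      rw [hc] at e2
      linarith
    have hyv : ∀ i, (1 - l) * v0 i + l * v1 i = y i := by
      intro i
      by_cases h : i = j
      · subst h; simp [hv0, hv1, ← hl]
      · simp only [hv0, hv1, Function.update_of_ne h]; ring
    obtain ⟨r, hr⟩ : ∃ r : ℝ, r = Real.exp (lx j * (1 - l)) := ⟨_, rfl⟩
    have hr0 : 0 < r := by rw [hr]; exact Real.exp_pos _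
    have hr1 : 1 ≤ r := by
      rw [hr]
      exact Real.one_le_exp (mul_nonneg (hlx j).le (by linarith))
    have h2 := conv s w a hw ha v0 v1 (hb _ h01) (hb _ h11) l r hj0.le hj1.le hr0
    simp only [hyv] at h2
    have h3 := hv v0 h01
    have h4 := hv v1 h11
    rw [hs] at h3 h4
    have h5 : Real.exp (k * S + (θ * S + lx j * (0 - l))) ≤ P := by
      rw [hP]
      apply Real.exp_le_exp.2
      nlinarith [hlx j, mul_pos (hlx j) hj0]
    have h6 : Real.exp (k * S + (θ * S + lx j * (1 - l))) = P * r := by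
      rw [hP, hr, ← Real.exp_add]
      congr 1
      ring
    rw [h6] at h4
    have h7 : ∑ t ∈ s, w t * ∏ i, a i t ^ v0 i ≤ W * (T + P) :=
      h3.trans (mul_le_mul_of_nonneg_left (by linarith) hW)
    have h8 : l / r * ∑ t ∈ s, w t * ∏ i, a i t ^ v1 i ≤ l * (W * (T + P)) := by
      calc l / r * ∑ t ∈ s, w t * ∏ i, a i t ^ v1 i ≤ l / r * (W * (T + P * r)) :=
            mul_le_mul_of_nonneg_left h4 (by positivity)
        _ = l * (W * (T / r + P)) := by field_simp
        _ ≤ l * (W * (T + P)) := by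
            have : T / r ≤ T := div_le_self hT hr1
            gcongr
    have h9 : r ^ l ≤ R := by
      have := hRy j hjf
      rw [← hl] at this
      rw [hr, Real.exp_mul, ← Real.rpow_mul (Real.exp_pos _).le, mul_comm (1 - l) l]
      exact this
    have hrl : 0 < r ^ l := Real.rpow_pos_of_pos hr0 _
    calc _ ≤ r ^ l * ((1 - l) * ∑ t ∈ s, w t * ∏ i, a i t ^ v0 i +
          l / r * ∑ t ∈ s, w t * ∏ i, a i t ^ v1 i) := h2
      _ ≤ r ^ l * ((1 - l) * (W * (T + P)) + l * (W * (T + P))) := by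
          apply mul_le_mul_of_nonneg_left _ hrl.le
          exact add_le_add (mul_le_mul_of_nonneg_left h7 (by linarith)) h8
      _ = r ^ l * (W * (T + P)) := by ring
      _ ≤ R * (W * (T + P)) := mul_le_mul_of_nonneg_right h9 (by positivity)
      _ = W * R * (T + P) := by ring

/-- **moments of products** -/
theorem core {ι : Type*} [Fintype ι] (X : ι → AF) (G x : ι → ℝ) (q θ R : ℝ) (hq : 0 < q) (k : ℕ)
    (hθ0 : 0 ≤ θ) (hθ1 : θ ≤ 1) (hqk : q / 2 = k + θ)
    {Δ : ℝ} (hX : ∀ i, L2 (X i) (G i) (x i)) (hx : ∀ i, 1 < x i)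
    (hΔ : ∀ n : ℕ, 1 ≤ n → (n : ℝ) ≤ (∏ i, x i) ^ (k + 1) → (n.divisors.card : ℝ) ≤ Δ)
    (hΔ1 : 1 ≤ Δ) (hR : 1 ≤ R)
    (hRy : ∀ y : ι → ℝ, Box y → ∑ i, Real.log (x i) * y i = θ * ∑ i, Real.log (x i) →
      (frac y).card ≤ 1 → ∀ j ∈ frac y, x j ^ (y j * (1 - y j)) ≤ R)
    (T : ℕ) (hT : 1 ≤ T) (ξ : ℝ) :
    ∑ t ∈ Icc 1 T, ‖∏ i, ev (X i) ((t : ℝ) + ξ)‖ ^ q ≤
      4 * (2 + Real.log ((∏ i, x i) ^ (k + 1)) ^ 2) * (1 + Real.log ((∏ i, x i) ^ (k + 1))) *
        Δ ^ (Fintype.card ι * (k + 1 + 1)) * R * (T + (∏ i, x i) ^ (q / 2)) *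
          (∏ i, G i) ^ (q / 2) := by
  classical
  have hT0 : (0 : ℝ) ≤ T := Nat.cast_nonneg _
  have hx0 : ∀ i, 0 < x i := fun i => by linarith [hx i]
  have hΛ1 : 1 ≤ ∏ i, x i := by
    rw [← prod_const_one (s := (univ : Finset ι))]
    exact prod_le_prod (fun _ _ => zero_le_one) fun i _ => (hx i).le
  have hΛK : 1 ≤ (∏ i, x i) ^ (k + 1) := one_le_pow₀ hΛ1
  have hlog : 0 ≤ Real.log ((∏ i, x i) ^ (k + 1)) := Real.log_nonneg hΛK
  have hG0 : ∀ i, 0 ≤ G i := fun i => (hX i).nonneg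
  obtain ⟨W, hWdef⟩ : ∃ W : ℝ, W = 4 * (2 + Real.log ((∏ i, x i) ^ (k + 1)) ^ 2) *
    (1 + Real.log ((∏ i, x i) ^ (k + 1))) * Δ ^ (Fintype.card ι * (k + 1 + 1)) := ⟨_, rfl⟩
  rw [← hWdef]
  have hW0 : 0 ≤ W := by rw [hWdef]; positivity
  have hΛ0 : 0 < ∏ i, x i := by linarith
  by_cases hGz : ∃ i, G i = 0
  · obtain ⟨i, hi⟩ := hGz
    have hXi : ∀ n, X i n = 0 := by
      intro n
      have := (hX i).2 {n}
      rw [sum_singleton, hi] at this
      have h2 : ‖X i n‖ ^ 2 = 0 := le_antisymm this (by positivity)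
      have h3 : ‖X i n‖ = 0 := by
        rcases pow_eq_zero_iff (two_ne_zero) |>.1 h2 with h
        exact h
      exact norm_eq_zero.1 h3
    have h1 : ∀ t ∈ Icc 1 T, ‖∏ i, ev (X i) ((t : ℝ) + ξ)‖ ^ q = 0 := by
      intro t _
      have : ev (X i) ((t : ℝ) + ξ) = 0 := by
        rw [ev_eq (X i) 0 (fun n _ => hXi n)]
        simp
      rw [prod_eq_zero (mem_univ i) this, norm_zero, Real.zero_rpow hq.ne']
    rw [sum_eq_zero h1]
    have : 0 ≤ ∏ i, G i := prod_nonneg fun i _ => hG0 i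
    positivity
  push Not at hGz
  have hGp : ∀ i, 0 < G i := fun i => lt_of_le_of_ne (hG0 i) (hGz i).symm
  set a : ι → ℕ → ℝ := fun i t => ‖ev (X i) ((t : ℝ) + ξ)‖ ^ 2 / G i with ha
  have ha0 : ∀ i t, 0 ≤ a i t := fun i t => by
    simp only [ha]
    have := hGp i
    positivity
  set w : ℕ → ℝ := fun t => ∏ i, a i t ^ k with hw
  have hw0 : ∀ t, 0 ≤ w t := fun t => prod_nonneg fun i _ => pow_nonneg (ha0 i t) _
  set lx : ι → ℝ := fun i => Real.log (x i) with hlx
  have hlx0 : ∀ i, 0 < lx i := fun i => Real.log_pos (hx i)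
  set S := ∑ i, lx i with hS
  have hexp : ∀ i, Real.exp (lx i) = x i := fun i => Real.exp_log (hx0 i)
  have hΛS : ∏ i, x i = Real.exp S := by
    rw [hS, Real.exp_sum]
    exact prod_congr rfl fun i _ => (hexp i).symm
  have hv : ∀ v : ι → ℝ, (∀ i, v i = 0 ∨ v i = 1) →
      ∑ t ∈ Icc 1 T, w t * ∏ i, a i t ^ v i ≤ W * (T + Real.exp (k * S + ∑ i, lx i * v i)) := by
    intro v hv
    set m : ι → ℕ := fun i => k + (if v i = 1 then 1 else 0) with hm
    have hmk : ∀ i, m i ≤ k + 1 := by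
      intro i
      simp only [hm]
      split_ifs <;> omega
    have hmv : ∀ i, (m i : ℝ) = k + v i := by
      intro i
      simp only [hm]
      rcases hv i with h | h
      · rw [if_neg (by rw [h]; norm_num), h]; push_cast; ring
      · rw [if_pos h, h]; push_cast; ring
    have h1 := vertex X G x (k + 1) m hmk hX (fun i => (hx i).le) hΔ hΔ1 T hT ξ
    rw [← hWdef] at h1
    have hGm : 0 < ∏ i, G i ^ m i := prod_pos fun i _ => pow_pos (hGp i) _
    have e1 : ∀ t ∈ Icc 1 T, w t * ∏ i, a i t ^ v i =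
        (∏ i, (‖ev (X i) ((t : ℝ) + ξ)‖ ^ 2) ^ m i) / ∏ i, G i ^ m i := by
      intro t _
      simp only [hw]
      rw [← prod_mul_distrib, ← prod_div_distrib]
      refine prod_congr rfl fun i _ => ?_
      rw [← div_pow]
      have : a i t ^ k * a i t ^ v i = a i t ^ m i := by
        rcases hv i with h | h
        · simp only [hm]
          rw [if_neg (by rw [h]; norm_num), h, Real.rpow_zero, mul_one, add_zero]
        · simp only [hm]
          rw [if_pos h, h, Real.rpow_one, pow_succ]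
      rw [this]
    rw [sum_congr rfl e1, ← sum_div, div_le_iff₀ hGm]
    refine h1.trans (le_of_eq ?_)
    congr 3
    rw [Real.exp_add, mul_comm (k : ℝ) S, Real.exp_mul, ← hΛS, Real.exp_sum, Real.rpow_natCast,
      ← prod_pow, ← prod_mul_distrib]
    refine prod_congr rfl fun i _ => ?_
    rcases hv i with h | h
    · simp only [hm]
      rw [if_neg (by rw [h]; norm_num), h, mul_zero, Real.exp_zero, mul_one, add_zero]
    · simp only [hm]
      rw [if_pos h, h, mul_one, hexp, pow_succ]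
  set F : (ι → ℝ) → ℝ := fun y => ∑ t ∈ Icc 1 T, w t * ∏ i, a i t ^ y i with hF
  have hconv : ∀ y y' : ι → ℝ, Box y → Box y' → ∀ l : ℝ, 0 ≤ l → l ≤ 1 →
      F (fun i => (1 - l) * y i + l * y' i) ≤ (1 - l) * F y + l * F y' := by
    intro y y' hy hy' l hl0 hl1
    have := conv (Icc 1 T) w a (fun t _ => hw0 t) (fun i t _ => ha0 i t) y y' hy hy' l 1 hl0 hl1
      one_pos
    rw [Real.one_rpow, one_mul, div_one] at this
    exact this
  have hlast : ∀ y, Box y → ∑ i, lx i * y i = θ * S → (frac y).card ≤ 1 →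
      F y ≤ W * R * (T + Real.exp (k * S + θ * S)) := by
    intro y hy hc hn
    refine last_step (Icc 1 T) w a (fun t _ => hw0 t) (fun i t _ => ha0 i t) lx hlx0 W R T k S θ
      hW0 hT0 hR hS hv y hy hc hn ?_
    intro j hj
    rw [hexp]
    exact hRy y hy hc hn j hj
  have hfin := pipage lx hlx0 F _ (θ * S) hconv hlast _ (fun _ => θ) (fun _ => ⟨hθ0, hθ1⟩)
    (by rw [← sum_mul, mul_comm]) le_rfl
  have hGG : 0 < ∏ i, G i := prod_pos fun i _ => hGp i
  have hP : Real.exp (k * S + θ * S) = (∏ i, x i) ^ (q / 2) := by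
    rw [hΛS, ← Real.exp_mul, hqk]
    congr 1
    ring
  rw [hP] at hfin
  have e2 : ∀ t ∈ Icc 1 T, w t * ∏ i, a i t ^ θ =
      ‖∏ i, ev (X i) ((t : ℝ) + ξ)‖ ^ q / (∏ i, G i) ^ (q / 2) := by
    intro t _
    simp only [hw]
    rw [← prod_mul_distrib]
    have e3 : ∀ i, a i t ^ k * a i t ^ θ = ‖ev (X i) ((t : ℝ) + ξ)‖ ^ q / G i ^ (q / 2) := by
      intro i
      rw [← Real.rpow_natCast, ← Real.rpow_add_of_nonneg (ha0 i t) (Nat.cast_nonneg _) hθ0, ← hqk]
      simp only [ha]
      rw [Real.div_rpow (by positivity) (hG0 i), ← Real.rpow_natCast (‖ev (X i) ((t : ℝ) + ξ)‖) 2,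
        ← Real.rpow_mul (norm_nonneg _)]
      congr 2
      push_cast
      ring
    rw [prod_congr rfl fun i _ => e3 i, prod_div_distrib,
      Real.finsetProd_rpow _ _ (fun i _ => norm_nonneg _),
      Real.finsetProd_rpow _ _ (fun i _ => hG0 i), norm_prod]
  simp only [hF] at hfin
  rw [sum_congr rfl e2, ← sum_div, div_le_iff₀ (Real.rpow_pos_of_pos hGG _)] at hfin
  exact hfin

end Run7.h415.MQP
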