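import Pool.Agent.TH445.MQ.Fin

set_option autoImplicit false

/-!
# The mean value theorem at the integers, with the square norm of the coefficients
-/

open Finset MeasureTheory

namespace Run7.h415.MQP

open Pool.Agent.W200.MR (pw)
open Pool.Agent.W67.MR (E expand E_cont)
open Pool.Agent.W462.MR (int_kl sum1 sum2)
open Pool.Agent.TH445.MQ

/-- the kernel -/
noncomputable def KK (N : ℕ) (S : ℝ) (k l : ℕ) : ℝ :=
  (if l = k then S else 0) + (if l < k then 2 * (N : ℝ) * (1 / ((k - l : ℕ) : ℝ)) else 0) +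
      (if k < l then 2 * (N : ℝ) * (1 / ((l - k : ℕ) : ℝ)) else 0)

lemma KK_comm (N : ℕ) (S : ℝ) (k l : ℕ) : KK N S k l = KK N S l k := by
  unfold KK
  rcases lt_trichotomy l k with h | h | h
  · rw [if_neg h.ne, if_pos h, if_neg (show ¬ k < l by omega), if_neg h.ne']
    ring
  · subst h; rfl
  · rw [if_neg h.ne', if_neg (show ¬ l < k by omega), if_pos h, if_neg h.ne]
    ring

lemma KK_row (N : ℕ) (S : ℝ) (k : ℕ) (hk : k ∈ Icc 1 N) :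
    ∑ l ∈ Icc 1 N, KK N S k l ≤ S + 4 * N * (1 + Real.log N) := by
  rw [mem_Icc] at hk
  unfold KK
  calc ∑ l ∈ Icc 1 N, ((if l = k then S else 0) +
          (if l < k then 2 * (N : ℝ) * (1 / ((k - l : ℕ) : ℝ)) else 0) +
          (if k < l then 2 * (N : ℝ) * (1 / ((l - k : ℕ) : ℝ)) else 0))
      = S + 2 * N * (∑ l ∈ Icc 1 N, (if l < k then 1 / ((k - l : ℕ) : ℝ) else 0)) +
          2 * N * (∑ l ∈ Icc 1 N, (if k < l then 1 / ((l - k : ℕ) : ℝ) else 0)) := by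
          rw [sum_add_distrib, sum_add_distrib, mul_sum, mul_sum]
          congr 1
          · congr 1
            · rw [sum_ite_eq', if_pos (mem_Icc.2 hk)]
            · refine sum_congr rfl fun l _ => ?_
              split_ifs <;> simp
          · refine sum_congr rfl fun l _ => ?_
            split_ifs <;> simp
    _ ≤ S + 2 * N * (1 + Real.log N) + 2 * N * (1 + Real.log N) := by
          gcongr
          · exact sum1 N k hk.2
          · exact sum2 N k hk.1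
    _ = S + 4 * N * (1 + Real.log N) := by ring

lemma mv_int (c : ℕ → ℂ) (N : ℕ) (S : ℝ) (hN : 1 ≤ N) (hS : 1 ≤ S) :
    ∫ t in S..(2 * S), ‖∑ k ∈ Icc 1 N, c k * pw t k‖ ^ 2 ≤
      (S + 4 * N * (1 + Real.log N)) * ∑ k ∈ Icc 1 N, ‖c k‖ ^ 2 := by
  have hfun : ((∫ t in S..(2 * S), ‖∑ k ∈ Icc 1 N, c k * pw t k‖ ^ 2 : ℝ) : ℂ) =
      ∑ k ∈ Icc 1 N, ∑ l ∈ Icc 1 N, c k * (starRingEnd ℂ) (c l) *
      (∫ t in S..(2 * S), E (Real.log k - Real.log l) t) := by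
    rw [← intervalIntegral.integral_ofReal]
    simp only [expand]
    have hci : ∀ (k l : ℕ), Continuous fun t : ℝ =>
        c k * (starRingEnd ℂ) (c l) * E (Real.log k - Real.log l) t := fun k l =>
      continuous_const.mul (E_cont _)
    rw [intervalIntegral.integral_finsetSum (fun k _ =>
      (continuous_finsetSum _ fun l _ => hci k l).intervalIntegrable _ _)]
    refine Finset.sum_congr rfl fun k _ => ?_
    rw [intervalIntegral.integral_finsetSum (fun l _ => (hci k l).intervalIntegrable _ _)]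
    refine Finset.sum_congr rfl fun l _ => ?_
    rw [intervalIntegral.integral_const_mul]
  have h1 : ∫ t in S..(2 * S), ‖∑ k ∈ Icc 1 N, c k * pw t k‖ ^ 2 ≤
      ∑ k ∈ Icc 1 N, ∑ l ∈ Icc 1 N, (‖c k‖ ^ 2 / 2 * KK N S k l + ‖c l‖ ^ 2 / 2 * KK N S k l) := by
    calc ∫ t in S..(2 * S), ‖∑ k ∈ Icc 1 N, c k * pw t k‖ ^ 2
        ≤ ‖((∫ t in S..(2 * S), ‖∑ k ∈ Icc 1 N, c k * pw t k‖ ^ 2 : ℝ) : ℂ)‖ := by
          rw [Complex.norm_real]
          exact Real.le_norm_self _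
      _ ≤ ∑ k ∈ Icc 1 N, ∑ l ∈ Icc 1 N,
          (‖c k‖ ^ 2 / 2 * KK N S k l + ‖c l‖ ^ 2 / 2 * KK N S k l) := by
          rw [hfun]
          refine (norm_sum_le _ _).trans (sum_le_sum fun k hk => ?_)
          refine (norm_sum_le _ _).trans (sum_le_sum fun l hl => ?_)
          rw [mem_Icc] at hk hl
          rw [norm_mul, norm_mul, RCLike.norm_conj, ← add_mul]
          have h2 : ‖c k‖ * ‖c l‖ ≤ ‖c k‖ ^ 2 / 2 + ‖c l‖ ^ 2 / 2 := by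
            nlinarith [sq_nonneg (‖c k‖ - ‖c l‖)]
          exact mul_le_mul h2 (int_kl hN hk.1 hl.1 hk.2 hl.2 S hS) (norm_nonneg _) (by positivity)
  refine h1.trans ?_
  set R := S + 4 * N * (1 + Real.log N) with hR
  have e1 : ∑ k ∈ Icc 1 N, ∑ l ∈ Icc 1 N, (‖c k‖ ^ 2 / 2 * KK N S k l + ‖c l‖ ^ 2 / 2 * KK N S k l)
      = ∑ k ∈ Icc 1 N, ‖c k‖ ^ 2 / 2 * ∑ l ∈ Icc 1 N, KK N S k l +
        ∑ l ∈ Icc 1 N, ‖c l‖ ^ 2 / 2 * ∑ k ∈ Icc 1 N, KK N S l k := by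
    simp only [sum_add_distrib]
    congr 1
    · refine sum_congr rfl fun k _ => ?_
      rw [mul_sum]
    · rw [sum_comm]
      refine sum_congr rfl fun l _ => ?_
      rw [mul_sum]
      refine sum_congr rfl fun k _ => ?_
      rw [KK_comm]
  rw [e1]
  have h3 : ∑ k ∈ Icc 1 N, ‖c k‖ ^ 2 / 2 * ∑ l ∈ Icc 1 N, KK N S k l ≤
      ∑ k ∈ Icc 1 N, ‖c k‖ ^ 2 / 2 * R :=
    sum_le_sum fun k hk => mul_le_mul_of_nonneg_left (KK_row N S k hk) (by positivity)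
  have h4 : ∑ k ∈ Icc 1 N, ‖c k‖ ^ 2 / 2 * R = R / 2 * ∑ k ∈ Icc 1 N, ‖c k‖ ^ 2 := by
    rw [mul_sum]
    exact sum_congr rfl fun k _ => by ring
  calc _ ≤ ∑ k ∈ Icc 1 N, ‖c k‖ ^ 2 / 2 * R + ∑ k ∈ Icc 1 N, ‖c k‖ ^ 2 / 2 * R := add_le_add h3 h3
    _ = R * ∑ k ∈ Icc 1 N, ‖c k‖ ^ 2 := by rw [h4]; ring

lemma mv_shift (c : ℕ → ℂ) (T x : ℕ) (hT : 1 ≤ T) (hx1 : 1 ≤ x) :
    ∑ i ∈ range T, ‖∑ n ∈ Icc 1 x, c n * pw ((T : ℝ) + i) n‖ ^ 2 ≤
      (2 + Real.log x ^ 2) * ((T + 4 * x * (1 + Real.log x)) * ∑ n ∈ Icc 1 x, ‖c n‖ ^ 2) := by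
  have hT1 : (1 : ℝ) ≤ T := by exact_mod_cast hT
  have hx1' : (1 : ℝ) ≤ x := by exact_mod_cast hx1
  have hlx0 : 0 ≤ Real.log x := Real.log_nonneg hx1'
  set h : ℝ → ℂ := fun u => ∑ n ∈ Icc 1 x, c n * pw u n with hh
  set c' : ℕ → ℂ := fun n => c n * (((Real.log n : ℝ) : ℂ) * Complex.I) with hc'
  set h' : ℝ → ℂ := fun u => ∑ n ∈ Icc 1 x, c' n * pw u n with hh'
  have hd : ∀ ξ, HasDerivAt h (h' ξ) ξ := by
    intro ξ
    have := HasDerivAt.fun_sum (u := Icc 1 x) fun n (_ : n ∈ Icc 1 x) =>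
      (pw_deriv n ξ).const_mul (c n)
    refine this.congr_deriv ?_
    refine sum_congr rfl fun n _ => ?_
    simp only [hc']
    ring
  have hc1 : Continuous h := continuous_finsetSum _ fun n _ => continuous_const.mul (pw_cont n)
  have hc2 : Continuous h' := continuous_finsetSum _ fun n _ => continuous_const.mul (pw_cont n)
  have hci : Continuous fun u => 2 * ‖h u‖ ^ 2 + ‖h' u‖ ^ 2 := by fun_prop
  have h1 : ∑ i ∈ range T, ‖h ((T : ℝ) + i)‖ ^ 2 ≤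
      ∫ u in (T : ℝ)..(2 * T), (2 * ‖h u‖ ^ 2 + ‖h' u‖ ^ 2) := by
    have e := intervalIntegral.sum_integral_adjacent_intervals (μ := volume)
      (f := fun u => 2 * ‖h u‖ ^ 2 + ‖h' u‖ ^ 2) (a := fun i : ℕ => (T : ℝ) + i) (n := T)
      (fun k _ => hci.intervalIntegrable _ _)
    simp only [Nat.cast_zero, add_zero] at e
    rw [show (T : ℝ) + T = 2 * T by ring] at e
    rw [← e]
    apply sum_le_sum
    intro i _
    have := Pool.Agent.W170.MV.gall hd hc1 hc2 ((T : ℝ) + i) ((T : ℝ) + i) le_rfl (by linarith)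
    have e3 : (T : ℝ) + ((i + 1 : ℕ) : ℝ) = T + i + 1 := by push_cast; ring
    rw [e3]
    exact this
  have h2 : ∫ u in (T : ℝ)..(2 * T), (2 * ‖h u‖ ^ 2 + ‖h' u‖ ^ 2) =
      2 * (∫ u in (T : ℝ)..(2 * T), ‖h u‖ ^ 2) + ∫ u in (T : ℝ)..(2 * T), ‖h' u‖ ^ 2 := by
    rw [intervalIntegral.integral_add (by apply Continuous.intervalIntegrable; fun_prop)
      (by apply Continuous.intervalIntegrable; fun_prop), intervalIntegral.integral_const_mul]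
  have h3 := mv_int c x T hx1 hT1
  have h4 := mv_int c' x T hx1 hT1
  set R := (T : ℝ) + 4 * x * (1 + Real.log x) with hR
  have hR0 : 0 ≤ R := by positivity
  have h5 : ∑ k ∈ Icc 1 x, ‖c' k‖ ^ 2 ≤ Real.log x ^ 2 * ∑ k ∈ Icc 1 x, ‖c k‖ ^ 2 := by
    rw [mul_sum]
    refine sum_le_sum fun n hn => ?_
    rw [mem_Icc] at hn
    have hn1 : (1 : ℝ) ≤ n := by exact_mod_cast hn.1
    have hnx : (n : ℝ) ≤ x := by exact_mod_cast hn.2
    have hl0 : 0 ≤ Real.log n := Real.log_nonneg hn1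
    have hl1 : Real.log n ≤ Real.log x := Real.log_le_log (by linarith) hnx
    simp only [hc']
    rw [norm_mul, norm_mul, Complex.norm_I, mul_one, Complex.norm_real, Real.norm_eq_abs,
      abs_of_nonneg hl0, mul_pow, mul_comm]
    gcongr
  refine h1.trans ?_
  rw [h2]
  have h6 : R * ∑ k ∈ Icc 1 x, ‖c' k‖ ^ 2 ≤ R * (Real.log x ^ 2 * ∑ k ∈ Icc 1 x, ‖c k‖ ^ 2) :=
    mul_le_mul_of_nonneg_left h5 hR0
  calc _ ≤ 2 * (R * ∑ k ∈ Icc 1 x, ‖c k‖ ^ 2) + R * (Real.log x ^ 2 * ∑ k ∈ Icc 1 x, ‖c k‖ ^ 2) := by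
        have h7 := h4.trans h6
        linarith
    _ = _ := by ring

/-- support and square norm -/
def L2 (X : AF) (G x : ℝ) : Prop :=
  (∀ n, X n ≠ 0 → (n : ℝ) ≤ x) ∧ ∀ s : Finset ℕ, ∑ n ∈ s, ‖X n‖ ^ 2 ≤ G

lemma L2.fs {X : AF} {G x : ℝ} (h : L2 X G x) : FS X := by
  refine ⟨⌊x⌋₊, fun n hn => ?_⟩
  by_contra hc
  have h1 := h.1 n hc
  have h2 : n ≤ ⌊x⌋₊ := Nat.le_floor h1
  omega

/-- **mean value theorem at the integers**, square norm -/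
theorem mv2 {X : AF} {G x : ℝ} (hX : L2 X G x) (hx : 1 ≤ x) (T : ℕ) (hT : 1 ≤ T) (ξ : ℝ) :
    ∑ t ∈ Icc 1 T, ‖ev X ((t : ℝ) + ξ)‖ ^ 2 ≤
      4 * (2 + Real.log x ^ 2) * (1 + Real.log x) * (T + x) * G := by
  have hT1 : (1 : ℝ) ≤ T := by exact_mod_cast hT
  have hG : 0 ≤ G := by simpa using hX.2 ∅
  have hz : ∀ n, ⌊x⌋₊ < n → X n = 0 := by
    intro n hn
    by_contra hc
    have h2 : n ≤ ⌊x⌋₊ := Nat.le_floor (hX.1 n hc)
    omega
  have h0 : 1 ≤ ⌊x⌋₊ := Nat.le_floor (by simpa using hx)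
  set c : ℕ → ℂ := fun n => X n * pw (ξ - T + 1) n with hc
  have hcn : ∀ n, ‖c n‖ = ‖X n‖ := by
    intro n
    simp only [hc]
    rw [norm_mul, pw_norm, mul_one]
  have hm := mv_shift c T ⌊x⌋₊ hT h0
  have e1 : ∑ t ∈ Icc 1 T, ‖ev X ((t : ℝ) + ξ)‖ ^ 2 =
      ∑ i ∈ range T, ‖ev X (((i + 1 : ℕ) : ℝ) + ξ)‖ ^ 2 := by
    rw [← Finset.sum_image (f := fun t : ℕ => ‖ev X ((t : ℝ) + ξ)‖ ^ 2)
      (g := fun i : ℕ => i + 1) (s := range T) (by intro a _ b _ h; simpa using h)]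
    apply sum_congr _ fun _ _ => rfl
    ext t
    simp only [mem_Icc, mem_image, mem_range]
    constructor
    · intro h; exact ⟨t - 1, by omega, by omega⟩
    · rintro ⟨i, hi, rfl⟩; omega
  rw [e1]
  have e2 : ∀ i ∈ range T, ‖ev X (((i + 1 : ℕ) : ℝ) + ξ)‖ ^ 2 =
      ‖∑ n ∈ Icc 1 ⌊x⌋₊, c n * pw ((T : ℝ) + i) n‖ ^ 2 := by
    intro i _
    congr 2
    rw [ev_eq X _ hz]
    apply sum_congr rfl
    intro n _
    rw [show (((i + 1 : ℕ) : ℝ) + ξ) = ((T : ℝ) + i) + (ξ - T + 1) by push_cast; ring, pw_add]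
    simp only [hc]
    ring
  rw [sum_congr rfl e2]
  refine hm.trans ?_
  have hf1 : (1 : ℝ) ≤ (⌊x⌋₊ : ℝ) := by exact_mod_cast h0
  have hfx : ((⌊x⌋₊ : ℕ) : ℝ) ≤ x := Nat.floor_le (by linarith)
  have hl0 : 0 ≤ Real.log (⌊x⌋₊ : ℝ) := Real.log_nonneg hf1
  have hl1 : Real.log (⌊x⌋₊ : ℝ) ≤ Real.log x := Real.log_le_log (by linarith) hfx
  have hlx : 0 ≤ Real.log x := Real.log_nonneg hx
  have hGs : ∑ n ∈ Icc 1 ⌊x⌋₊, ‖c n‖ ^ 2 ≤ G := by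
    simp only [hcn]
    exact hX.2 _
  have hR : (T : ℝ) + 4 * (⌊x⌋₊ : ℝ) * (1 + Real.log (⌊x⌋₊ : ℝ)) ≤ 4 * (1 + Real.log x) * (T + x) := by
    have : (T : ℝ) ≤ 4 * (1 + Real.log x) * T := by nlinarith
    have : 4 * (⌊x⌋₊ : ℝ) * (1 + Real.log (⌊x⌋₊ : ℝ)) ≤ 4 * x * (1 + Real.log x) := by gcongr
    nlinarith
  calc (2 + Real.log (⌊x⌋₊ : ℝ) ^ 2) * (((T : ℝ) + 4 * (⌊x⌋₊ : ℝ) * (1 + Real.log (⌊x⌋₊ : ℝ))) *
        ∑ n ∈ Icc 1 ⌊x⌋₊, ‖c n‖ ^ 2)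
      ≤ (2 + Real.log x ^ 2) * ((4 * (1 + Real.log x) * (T + x)) * G) := by
        gcongr
    _ = _ := by ring

end Run7.h415.MQP
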