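import Pool.Agent.Run7.h415.MQP.Mv

set_option autoImplicit false

/-!
# Square norms of Dirichlet convolutions
-/

open Finset

namespace Run7.h415.MQP

open Pool.Agent.TH445.MQ

lemma L2.nonneg {X : AF} {G x : ℝ} (h : L2 X G x) : 0 ≤ G := by simpa using h.2 ∅

lemma L2.mul {X Y : AF} {G G' x y Δ P : ℝ} (hX : L2 X G x) (hY : L2 Y G' y) (hx : 0 ≤ x)
    (hP : x * y ≤ P) (hΔ : ∀ n : ℕ, 1 ≤ n → (n : ℝ) ≤ P → (n.divisors.card : ℝ) ≤ Δ)
    (hΔ0 : 0 ≤ Δ) : L2 (X * Y) (Δ * (G * G')) (x * y) := by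
  classical
  have hG : 0 ≤ G := hX.nonneg
  have hG' : 0 ≤ G' := hY.nonneg
  have hsupp : ∀ n, (X * Y) n ≠ 0 → (n : ℝ) ≤ x * y := by
    intro n hn
    rw [ArithmeticFunction.mul_apply] at hn
    obtain ⟨⟨a, b⟩, hab, hne⟩ := exists_ne_zero_of_sum_ne_zero hn
    rw [Nat.mem_divisorsAntidiagonal] at hab
    simp only at hab hne
    have h1 := hX.1 a (left_ne_zero_of_mul hne)
    have h2 := hY.1 b (right_ne_zero_of_mul hne)
    rw [← hab.1]
    push_cast
    exact mul_le_mul h1 h2 (Nat.cast_nonneg _) hx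
  refine ⟨hsupp, fun s => ?_⟩
  set g : ℕ × ℕ → ℝ := fun p => ‖X p.1‖ ^ 2 * ‖Y p.2‖ ^ 2 with hg
  have hg0 : ∀ p, 0 ≤ g p := fun p => by simp only [hg]; positivity
  have h1 : ∀ n, ‖(X * Y) n‖ ^ 2 ≤ Δ * ∑ p ∈ n.divisorsAntidiagonal, g p := by
    intro n
    by_cases hn : (X * Y) n = 0
    · rw [hn, norm_zero]
      have := sum_nonneg fun p (_ : p ∈ n.divisorsAntidiagonal) => hg0 p
      simp only [ne_eq, OfNat.ofNat_ne_zero, not_false_eq_true, zero_pow]
      positivity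
    · have hn1 : 1 ≤ n := by
        rcases Nat.eq_zero_or_pos n with h | h
        · subst h; simp at hn
        · exact h
      have hc : ((n.divisorsAntidiagonal.card : ℕ) : ℝ) ≤ Δ := by
        have : n.divisorsAntidiagonal.card = n.divisors.card := by
          rw [← Nat.map_div_right_divisors, card_map]
        rw [this]
        exact hΔ n hn1 ((hsupp n hn).trans hP)
      rw [ArithmeticFunction.mul_apply]
      calc ‖∑ x ∈ n.divisorsAntidiagonal, X x.1 * Y x.2‖ ^ 2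
          ≤ (∑ x ∈ n.divisorsAntidiagonal, ‖X x.1 * Y x.2‖) ^ 2 :=
            pow_le_pow_left₀ (norm_nonneg _) (norm_sum_le _ _) 2
        _ ≤ n.divisorsAntidiagonal.card * ∑ x ∈ n.divisorsAntidiagonal, ‖X x.1 * Y x.2‖ ^ 2 :=
            sq_sum_le_card_mul_sum_sq
        _ = n.divisorsAntidiagonal.card * ∑ p ∈ n.divisorsAntidiagonal, g p := by
            congr 1
            refine sum_congr rfl fun p _ => ?_
            simp only [hg]
            rw [norm_mul, mul_pow]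
        _ ≤ Δ * ∑ p ∈ n.divisorsAntidiagonal, g p :=
            mul_le_mul_of_nonneg_right hc (sum_nonneg fun p _ => hg0 p)
  calc ∑ n ∈ s, ‖(X * Y) n‖ ^ 2 ≤ ∑ n ∈ s, Δ * ∑ p ∈ n.divisorsAntidiagonal, g p :=
        sum_le_sum fun n _ => h1 n
    _ = Δ * ∑ n ∈ s, ∑ p ∈ n.divisorsAntidiagonal, g p := by rw [mul_sum]
    _ = Δ * ∑ p ∈ s.biUnion fun n => n.divisorsAntidiagonal, g p := by
        rw [sum_biUnion]
        intro a _ b _ hab
        rw [Function.onFun, disjoint_left]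
        intro p hp1 hp2
        rw [Nat.mem_divisorsAntidiagonal] at hp1 hp2
        exact hab (hp1.1.symm.trans hp2.1)
    _ ≤ Δ * ∑ p ∈ ((s.biUnion fun n => n.divisorsAntidiagonal).image Prod.fst) ×ˢ
          ((s.biUnion fun n => n.divisorsAntidiagonal).image Prod.snd), g p := by
        apply mul_le_mul_of_nonneg_left _ hΔ0
        apply sum_le_sum_of_subset_of_nonneg _ fun p _ _ => hg0 p
        intro p hp
        rw [mem_product]
        exact ⟨mem_image_of_mem _ hp, mem_image_of_mem _ hp⟩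
    _ = Δ * ((∑ a ∈ (s.biUnion fun n => n.divisorsAntidiagonal).image Prod.fst, ‖X a‖ ^ 2) *
          ∑ b ∈ (s.biUnion fun n => n.divisorsAntidiagonal).image Prod.snd, ‖Y b‖ ^ 2) := by
        rw [sum_mul_sum, sum_product]
    _ ≤ Δ * (G * G') := by
        apply mul_le_mul_of_nonneg_left _ hΔ0
        exact mul_le_mul (hX.2 _) (hY.2 _) (sum_nonneg fun _ _ => by positivity) hG

lemma L2.one {x : ℝ} (hx : 1 ≤ x) : L2 1 1 x := by
  refine ⟨fun n hn => ?_, fun s => ?_⟩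
  · by_cases h : n = 1
    · subst h; simpa using hx
    · exact absurd (ArithmeticFunction.one_apply_ne h) hn
  · have : ∀ n ∈ s, ‖(1 : AF) n‖ ^ 2 = if n = 1 then 1 else 0 := by
      intro n _
      split_ifs with h
      · subst h; simp
      · rw [ArithmeticFunction.one_apply_ne h]; simp
    rw [sum_congr rfl this, sum_ite_eq']
    split_ifs <;> norm_num

lemma L2.pow {X : AF} {G x Δ P : ℝ} (hX : L2 X G x) (hx : 1 ≤ x) (k : ℕ)
    (hP : x ^ k ≤ P) (hΔ : ∀ n : ℕ, 1 ≤ n → (n : ℝ) ≤ P → (n.divisors.card : ℝ) ≤ Δ)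
    (hΔ0 : 0 ≤ Δ) : L2 (X ^ k) (Δ ^ k * G ^ k) (x ^ k) := by
  induction k with
  | zero => simpa using L2.one le_rfl
  | succ k ih =>
    have h1 : x ^ k ≤ P := le_trans (pow_le_pow_right₀ hx (Nat.le_succ k)) hP
    have h2 := (ih h1).mul hX (by positivity) (by rw [← pow_succ]; exact hP) hΔ hΔ0
    rw [pow_succ, pow_succ x]
    convert h2 using 1
    ring

lemma L2.prod {ι : Type*} (s : Finset ι) (X : ι → AF) (G x : ι → ℝ) {Δ P : ℝ}
    (hX : ∀ i ∈ s, L2 (X i) (G i) (x i)) (hx : ∀ i ∈ s, 1 ≤ x i) (hP : ∏ i ∈ s, x i ≤ P)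
    (hΔ : ∀ n : ℕ, 1 ≤ n → (n : ℝ) ≤ P → (n.divisors.card : ℝ) ≤ Δ) (hΔ0 : 0 ≤ Δ) :
    L2 (∏ i ∈ s, X i) (Δ ^ s.card * ∏ i ∈ s, G i) (∏ i ∈ s, x i) := by
  classical
  induction s using Finset.induction_on with
  | empty => simpa using L2.one le_rfl
  | insert a s ha ih =>
    rw [prod_insert ha] at hP
    have hxa : 1 ≤ x a := hx a (mem_insert_self _ _)
    have hxs : ∀ i ∈ s, 1 ≤ x i := fun i hi => hx i (mem_insert_of_mem hi)
    have hps : 0 ≤ ∏ i ∈ s, x i := prod_nonneg fun i hi => by linarith [hxs i hi]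
    have h1 : ∏ i ∈ s, x i ≤ P := le_trans (le_mul_of_one_le_left hps hxa) hP
    have h2 := (hX a (mem_insert_self _ _)).mul
      (ih (fun i hi => hX i (mem_insert_of_mem hi)) hxs h1) (by linarith) hP hΔ hΔ0
    rw [prod_insert ha, prod_insert ha, prod_insert ha, card_insert_of_notMem ha]
    convert h2 using 1
    ring

/-- the moment at the integer exponents `2 m_j` -/
theorem vertex {ι : Type*} [Fintype ι] (X : ι → AF) (G x : ι → ℝ) (K : ℕ) (m : ι → ℕ)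
    (hm : ∀ i, m i ≤ K) {Δ : ℝ} (hX : ∀ i, L2 (X i) (G i) (x i)) (hx : ∀ i, 1 ≤ x i)
    (hΔ : ∀ n : ℕ, 1 ≤ n → (n : ℝ) ≤ (∏ i, x i) ^ K → (n.divisors.card : ℝ) ≤ Δ) (hΔ1 : 1 ≤ Δ)
    (T : ℕ) (hT : 1 ≤ T) (ξ : ℝ) :
    ∑ t ∈ Icc 1 T, ∏ i, (‖ev (X i) ((t : ℝ) + ξ)‖ ^ 2) ^ m i ≤
      4 * (2 + Real.log ((∏ i, x i) ^ K) ^ 2) * (1 + Real.log ((∏ i, x i) ^ K)) *
        Δ ^ (Fintype.card ι * (K + 1)) * (T + ∏ i, x i ^ m i) * ∏ i, G i ^ m i := by
  classical
  have hΔ0 : 0 ≤ Δ := by linarith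
  have hx0 : ∀ i, 0 ≤ x i := fun i => by linarith [hx i]
  have hxp : ∏ i, x i ^ m i ≤ (∏ i, x i) ^ K := by
    rw [← prod_pow]
    exact prod_le_prod (fun i _ => by have := hx0 i; positivity)
      fun i _ => pow_le_pow_right₀ (hx i) (hm i)
  have hx1 : 1 ≤ ∏ i, x i ^ m i := by
    rw [← prod_const_one (s := (univ : Finset ι))]
    exact prod_le_prod (fun _ _ => zero_le_one) fun i _ => one_le_pow₀ (hx i)
  have hpi : ∀ i, x i ^ m i ≤ (∏ i, x i) ^ K := by
    intro i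
    refine le_trans ?_ hxp
    calc x i ^ m i ≤ x i ^ m i * ∏ j ∈ univ.erase i, x j ^ m j := by
          apply le_mul_of_one_le_right (by have := hx0 i; positivity)
          rw [← prod_const_one (s := (univ.erase i : Finset ι))]
          exact prod_le_prod (fun _ _ => zero_le_one) fun i _ => one_le_pow₀ (hx i)
      _ = ∏ j, x j ^ m j := by rw [mul_prod_erase univ (fun j => x j ^ m j) (mem_univ i)]
  have h1 : ∀ i, L2 (X i ^ m i) (Δ ^ m i * G i ^ m i) (x i ^ m i) := fun i =>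
    (hX i).pow (hx i) (m i) (hpi i) hΔ hΔ0
  have h2 := L2.prod univ (fun i => X i ^ m i) _ _ (fun i _ => h1 i)
    (fun i _ => one_le_pow₀ (hx i)) hxp hΔ hΔ0
  have h3 := mv2 h2 hx1 T hT ξ
  have e1 : ∀ t : ℝ, ‖ev (∏ i, X i ^ m i) t‖ ^ 2 = ∏ i, (‖ev (X i) t‖ ^ 2) ^ m i := by
    intro t
    rw [ev_prod _ _ (fun i _ => ((hX i).fs).pow (m i)), norm_prod, ← prod_pow]
    refine prod_congr rfl fun i _ => ?_
    rw [ev_pow (hX i).fs, norm_pow, ← pow_mul, ← pow_mul, mul_comm]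
  simp only [e1] at h3
  refine h3.trans ?_
  have hG0 : ∀ i, 0 ≤ G i := fun i => (hX i).nonneg
  have hGp : 0 ≤ ∏ i, G i ^ m i := prod_nonneg fun i _ => by have := hG0 i; positivity
  have hl0 : 0 ≤ Real.log (∏ i, x i ^ m i) := Real.log_nonneg hx1
  have hl1 : Real.log (∏ i, x i ^ m i) ≤ Real.log ((∏ i, x i) ^ K) :=
    Real.log_le_log (by linarith) hxp
  have e2 : Δ ^ (univ : Finset ι).card * ∏ i, (Δ ^ m i * G i ^ m i) ≤
      Δ ^ (Fintype.card ι * (K + 1)) * ∏ i, G i ^ m i := by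
    rw [prod_mul_distrib, ← mul_assoc]
    apply mul_le_mul_of_nonneg_right _ hGp
    have : ∏ i, Δ ^ m i ≤ Δ ^ (Fintype.card ι * K) := by
      rw [prod_pow_eq_pow_sum]
      apply pow_le_pow_right₀ hΔ1
      calc ∑ i, m i ≤ ∑ _i : ι, K := sum_le_sum fun i _ => hm i
        _ = Fintype.card ι * K := by rw [sum_const, card_univ, smul_eq_mul]
    calc Δ ^ (univ : Finset ι).card * ∏ i, Δ ^ m i
        ≤ Δ ^ Fintype.card ι * Δ ^ (Fintype.card ι * K) := by
          rw [card_univ]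
          exact mul_le_mul_of_nonneg_left this (by positivity)
      _ = Δ ^ (Fintype.card ι * (K + 1)) := by rw [← pow_add]; ring_nf
  have hl2 : 0 ≤ Real.log ((∏ i, x i) ^ K) := hl0.trans hl1
  have hA : 4 * (2 + Real.log (∏ i, x i ^ m i) ^ 2) * (1 + Real.log (∏ i, x i ^ m i)) *
      (T + ∏ i, x i ^ m i) ≤
      4 * (2 + Real.log ((∏ i, x i) ^ K) ^ 2) * (1 + Real.log ((∏ i, x i) ^ K)) *
      (T + ∏ i, x i ^ m i) := by
    have hT0 : (0 : ℝ) ≤ T := Nat.cast_nonneg _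
    gcongr
  have hx1' : 0 ≤ ∏ i, x i ^ m i := by linarith
  calc _ ≤ 4 * (2 + Real.log ((∏ i, x i) ^ K) ^ 2) * (1 + Real.log ((∏ i, x i) ^ K)) *
        (T + ∏ i, x i ^ m i) * (Δ ^ (Fintype.card ι * (K + 1)) * ∏ i, G i ^ m i) := by
        refine mul_le_mul hA e2 ?_ (by positivity)
        exact mul_nonneg (by positivity) (prod_nonneg fun i _ => by have := hG0 i; positivity)
    _ = _ := by ring

end Run7.h415.MQP
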